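import Mathlib

set_option autoImplicit false

namespace Pool.Agent.Results.MP_453038_al.Subindex

open Cardinal

universe u

/-- The product `AB` is direct. -/
def Direct {G : Type u} [Group G] (A B : Set G) : Prop :=
  ∀ a ∈ A, ∀ a' ∈ A, ∀ b ∈ B, ∀ b' ∈ B, a * b = a' * b' → a = a' ∧ b = b'

/-- Cardinalities of the right subfactors related to `A`. -/
def sizes {G : Type u} [Group G] (A : Set G) : Set Cardinal.{u} :=
  {c | ∃ B : Set G, Maximal (Direct A) B ∧ #B = c}

abbrev K (H : Type u) := Multiplicative ((H × ℕ) →₀ ZMod 2)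

lemma card_G (H : Type u) [Infinite H] : #(H × K H) = #H := by
  have h1 : #(K H) = #H := by
    show #((H × ℕ) →₀ ZMod 2) = _
    rw [mk_finsupp_lift_of_infinite]
    simpa using (natCast_le_aleph0 (n := 2)).trans (aleph0_le_mk H)
  simp [h1]

theorem main (H : Type u) [Group H] [Infinite H] :
    ∃ A : Set (H × K H), IsLeast (sizes A) 2 ∧ IsLUB (sizes A) #H := by
  classical
  obtain ⟨j⟩ : Nonempty ((H × K H) ↪ H) := (Cardinal.le_def _ _).1 (card_G H).le
  let t : K H := Multiplicative.ofAdd (Finsupp.single (1, 0) 1)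
  let C : Set (H × K H) := {g | (g.2 = 1 ∧ g ≠ 1) ∨ g = (1, t)}
  let ι : H × K H → H × ℕ := fun d =>
    (j d, (Multiplicative.toAdd d.2).support.sup Prod.snd + 1)
  let e : H × K H → H × K H := fun d => (1, Multiplicative.ofAdd (Finsupp.single (ι d) 1))
  let A : Set (H × K H) := {a | ∃ d, d ∉ C ∧ (a = e d ∨ a = e d * d)}
  have ht2 : t * t = 1 := by
    rw [← ofAdd_add, ← Finsupp.single_add, show (1 : ZMod 2) + 1 = 0 from rfl, Finsupp.single_zero]
    rfl
  have ht1 : t ≠ 1 := fun h => by
    have := DFunLike.congr_fun (congrArg Multiplicative.toAdd h) (1, 0)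
    simp [t] at this
  have hti : ((1 : H), t)⁻¹ = (1, t) := Prod.ext inv_one (inv_eq_of_mul_eq_one_right ht2)
  have hC1 : (1 : H × K H) ∉ C := by
    rintro (h | h)
    · exact h.2 rfl
    · exact ht1 (congrArg Prod.snd h).symm
  have hCi : ∀ g ∈ C, g⁻¹ ∈ C := by
    rintro g (h | rfl)
    · exact Or.inl ⟨by rw [Prod.snd_inv, h.1, inv_one], inv_ne_one.2 h.2⟩
    · exact Or.inr hti
  have hz : ∀ d d' : H × K H, (ι d').2 ≤ (ι d).2 → Multiplicative.toAdd d'.2 (ι d) = 0 := by
    intro d d' h
    by_contra hc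
    have := Finset.le_sup (f := Prod.snd) (Finsupp.mem_support_iff.2 hc)
    simp only [ι] at h this
    omega
  have hA' : ∀ d d' a a', d ≠ d' → (ι d').2 ≤ (ι d).2 → (a = e d ∨ a = e d * d) →
      (a' = e d' ∨ a' = e d' * d') → a⁻¹ * a' ∉ C := by
    intro d d' a a' hne hle ha ha' hc
    have hι : ι d' ≠ ι d := fun h => hne (j.injective (congrArg Prod.fst h)).symm
    have h1 : Multiplicative.toAdd a.2 (ι d) = 1 := by
      rcases ha with rfl | rfl <;> simp [e, hz d d le_rfl]
    have h2 : Multiplicative.toAdd a'.2 (ι d) = 0 := by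
      rcases ha' with rfl | rfl <;> simp [e, hz d d' hle, hι]
    have h3 : Multiplicative.toAdd (a⁻¹ * a').2 (ι d) = 0 := by
      rcases hc with h | h
      · rw [h.1]; rfl
      · rw [h]
        refine Finsupp.single_eq_of_ne fun h => ?_
        have := congrArg Prod.snd h
        simp [ι] at this
    simp [h1, h2] at h3
  have hA : ∀ a ∈ A, ∀ a' ∈ A, a⁻¹ * a' ∉ C := by
    rintro a ⟨d, hd, ha⟩ a' ⟨d', hd', ha'⟩ hc
    by_cases hne : d = d'
    · subst hne
      rcases ha with rfl | rfl <;> rcases ha' with rfl | rfl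
      · exact hC1 (by simpa using hc)
      · exact hd (by simpa using hc)
      · exact hd (by simpa using hCi _ hc)
      · exact hC1 (by simpa using hc)
    · rcases le_total (ι d').2 (ι d).2 with h | h
      · exact hA' d d' a a' hne h ha ha' hc
      · exact hA' d' d a' a (Ne.symm hne) h ha' ha (by simpa using hCi _ hc)
  have hD : ∀ B, Direct A B ↔ ∀ b ∈ B, ∀ b' ∈ B, b ≠ b' → b * b'⁻¹ ∈ C := by
    intro B
    constructor
    · intro h b hb b' hb' hne
      by_contra hc
      exact hne (h _ ⟨_, hc, Or.inl rfl⟩ _ ⟨_, hc, Or.inr rfl⟩ b hb b' hb' (by group)).2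
    · intro h a ha a' ha' b hb b' hb' hab
      have : b = b' := by
        by_contra hne
        refine hA a ha a' ha' ?_
        have : a⁻¹ * a' = b * b'⁻¹ := by
          rw [inv_mul_eq_iff_eq_mul, ← mul_assoc, hab, mul_inv_cancel_right]
        rw [this]
        exact h b hb b' hb' hne
      exact ⟨mul_right_cancel (this ▸ hab), this⟩
  have hne : (1 : H × K H) ≠ (1, t) := fun h => hC1 (Or.inr h)
  refine ⟨A, ⟨⟨{1, (1, t)}, ⟨(hD _).2 ?_, fun B hB hle g hg => ?_⟩, mk_insert (by simpa using hne)
    |>.trans (by simp [one_add_one_eq_two])⟩, ?_⟩, IsGreatest.isLUB ⟨⟨{g | g.2 = 1},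
      ⟨(hD _).2 ?_, fun B hB hle g hg => ?_⟩, ?_⟩, ?_⟩⟩
  · rintro b (rfl | rfl) b' (rfl | rfl) h
    · exact absurd rfl h
    · exact Or.inr (by rw [one_mul, hti])
    · exact Or.inr (by simp)
    · exact absurd rfl h
  · by_contra hc
    simp only [Set.mem_insert_iff, Set.mem_singleton_iff, not_or] at hc
    have h1 := (hD B).1 hB g hg 1 (hle (by simp)) hc.1
    have h2 := (hD B).1 hB g hg (1, t) (hle (by simp)) hc.2
    rw [inv_one, mul_one] at h1
    rw [hti] at h2
    rcases h1 with h1 | h1
    · rcases h2 with h2 | h2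
      · exact ht1 (by simpa [h1.1] using h2.1)
      · exact hc.1 (by simpa using h2)
    · exact hc.2 h1
  · rintro _ ⟨B, hB, rfl⟩
    rw [two_le_iff]
    by_contra hc
    push Not at hc
    have hs : B.Subsingleton := fun x hx y hy => congrArg Subtype.val (hc ⟨x, hx⟩ ⟨y, hy⟩)
    have key : ∀ b, B ⊆ {b} → False := by
      intro b hb
      have h1 : Direct A {b, (1, t) * b} := (hD _).2 (by
        rintro x (rfl | rfl) y (rfl | rfl) h
        · exact absurd rfl h
        · exact Or.inr (by rw [mul_inv_rev, mul_inv_cancel_left, hti])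
        · exact Or.inr (by simp)
        · exact absurd rfl h)
      have h2 := hb (hB.2 h1 (hb.trans (by simp)) (Or.inr rfl))
      exact ht1 (by simpa using h2.symm)
    rcases hs.eq_empty_or_singleton with h | ⟨b, h⟩
    · exact key 1 (by simp [h])
    · exact key b h.subset
  · intro b hb b' hb' h
    exact Or.inl ⟨by rw [Prod.snd_mul, Prod.snd_inv, hb, hb', inv_one, mul_one],
      fun h' => h (mul_inv_eq_one.1 h')⟩
  · by_contra hc
    obtain ⟨x, hx⟩ := exists_ne (1 : H)
    have key : ∀ y : H, g * (y, 1)⁻¹ = (1, t) := by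
      intro y
      rcases (hD B).1 hB g hg (y, 1) (hle rfl) (fun h => hc (by rw [h]; rfl)) with h | h
      · exact absurd (by simpa using h.1) hc
      · exact h
    have := (key x).trans (key 1).symm
    exact hx (by simpa using this)
  · refine mk_congr ⟨fun g => g.1.1, fun h => ⟨(h, 1), rfl⟩, fun g => ?_, fun _ => rfl⟩
    exact Subtype.ext (Prod.ext rfl g.2.symm)
  · rintro _ ⟨B, -, rfl⟩
    exact (mk_set_le B).trans (card_G H).le

/-- For every infinite cardinal there are an abelian and a non-abelian group with a subset of lower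
subindex 2 and upper subindex that cardinal. -/
theorem result (α : Cardinal.{u}) (hα : ℵ₀ ≤ α) :
    (∃ (G : Type u) (_ : CommGroup G) (A : Set G), IsLeast (sizes A) 2 ∧ IsLUB (sizes A) α) ∧
    (∃ (G : Type u) (_ : Group G), (∃ x y : G, x * y ≠ y * x) ∧
      ∃ A : Set G, IsLeast (sizes A) 2 ∧ IsLUB (sizes A) α) := by
  classical
  induction α using Cardinal.inductionOn with
  | _ X =>
  have : Infinite X := infinite_iff.2 hα
  constructor
  · have h : #(Multiplicative (FreeAbelianGroup X)) = #X := by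
      show #(FreeAbelianGroup X) = _
      simp [hα]
    have : Infinite (Multiplicative (FreeAbelianGroup X)) := infinite_iff.2 (h ▸ hα)
    exact ⟨_, inferInstance, h ▸ main (Multiplicative (FreeAbelianGroup X))⟩
  · have h : #(FreeGroup X) = #X := by simp [hα]
    have : Infinite (FreeGroup X) := infinite_iff.2 (h ▸ hα)
    obtain ⟨x, y, hxy⟩ := exists_pair_ne X
    refine ⟨_, inferInstance, ⟨(FreeGroup.of x, 1), (FreeGroup.of y, 1), fun e => ?_⟩,
      h ▸ main (FreeGroup X)⟩
    have := congrArg (fun p => FreeGroup.lift (fun z => if z = x then Equiv.swap (0 : Fin 3) 1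
      else Equiv.swap 1 2) p.1) e
    simp only [Prod.fst_mul, map_mul, FreeGroup.lift_apply_of, if_true, if_neg hxy.symm] at this
    exact absurd this (by decide)

end Pool.Agent.Results.MP_453038_al.Subindex
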